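import Pool.Agent.R553.SNT.Defs

open Set Filter Cardinal

namespace Pool.Agent.R553.SNT

theorem cyl_isOpen (s : List Bool) : IsOpen (cyl s) := by
  have : cyl s = ⋂ i : Fin s.length, {x : Cantor | x i = s[i]} := by
    ext x
    simp only [cyl, mem_ofPred_eq, mem_iInter]
    constructor
    · intro h i; exact h i i.2
    · intro h i hi; exact h ⟨i, hi⟩
  rw [this]
  apply isOpen_iInter_of_finite
  intro i
  exact (isOpen_discrete ({s[(i : ℕ)]} : Set Bool)).preimage
    (continuous_apply (A := fun _ : ℕ => Bool) (i : ℕ))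

theorem limSet_isGδ (σ : ℕ → List Bool) : IsGδ (limSet σ) := by
  have : limSet σ = ⋂ N : ℕ, ⋃ n : ℕ, ⋃ _ : N ≤ n, cyl (σ n) := by
    ext x
    simp only [limSet, mem_ofPred_eq, mem_iInter, mem_iUnion]
    rw [← Nat.frequently_atTop_iff_infinite, Filter.frequently_atTop]
    simp only [exists_prop]
  rw [this]
  apply IsGδ.iInter_of_isOpen
  intro N
  exact isOpen_iUnion fun n => isOpen_iUnion fun _ => cyl_isOpen _

/-- The first `n` values of `x`. -/
def pre (x : Cantor) (n : ℕ) : List Bool := List.ofFn (fun i : Fin n => x i)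

theorem pre_length (x : Cantor) (n : ℕ) : (pre x n).length = n := by simp [pre]

theorem mem_cyl_pre (x : Cantor) (n : ℕ) : x ∈ cyl (pre x n) := by
  intro i hi
  simp [pre]

theorem exists_seq (f : ℕ → ℕ) (hf : Monotone f) (q : ℕ → Cantor) :
    ∃ σ : ℕ → List Bool, Ll f (hgt σ) ∧ ∀ k, q k ∈ limSet σ := by
  refine ⟨fun n => pre (q (Nat.unpair n).1) (f (n ^ n)), ?_, ?_⟩
  · intro k
    refine ⟨k + 1, fun n hn => ?_⟩
    simp only [hgt, pre_length]
    exact hf (Nat.pow_le_pow_right (by omega) (by omega))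
  · intro k
    apply Set.infinite_of_injective_forall_mem (f := fun m : ℕ => Nat.pair k m)
    · intro a b hab
      have := congrArg (fun z => (Nat.unpair z).2) hab
      simpa using this
    · intro m
      simp only [mem_ofPred_eq, Nat.unpair_pair]
      exact mem_cyl_pre _ _

theorem union_mem {f : ℕ → ℕ} (hf : Monotone f) {X Y : Set Cantor} (hX : X ∈ YI f)
    (hY : Y ∈ YI f) : ∃ σ : ℕ → List Bool, X ∪ Y ⊆ limSet σ ∧ Ll f (hgt σ) := by
  obtain ⟨σ, hσ, hσf⟩ := hX
  obtain ⟨τ, hτ, hτf⟩ := hY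
  refine ⟨fun n => if n % 2 = 0 then σ (n / 2) else τ (n / 2), ?_, ?_⟩
  · rintro x (hx | hx)
    · have := hσ hx
      have h2 := this.image (f := fun n => 2 * n) (fun a _ b _ h => by simpa using h)
      refine h2.mono ?_
      rintro _ ⟨n, hn, rfl⟩
      simp only [mem_ofPred_eq] at hn ⊢
      rw [if_pos (by omega)]
      rwa [show 2 * n / 2 = n by omega]
    · have := hτ hx
      have h2 := this.image (f := fun n => 2 * n + 1) (fun a _ b _ h => by simpa using h)
      refine h2.mono ?_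
      rintro _ ⟨n, hn, rfl⟩
      simp only [mem_ofPred_eq] at hn ⊢
      rw [if_neg (by omega)]
      rwa [show (2 * n + 1) / 2 = n by omega]
  · intro k
    obtain ⟨N₁, h₁⟩ := hσf (2 * k)
    obtain ⟨N₂, h₂⟩ := hτf (2 * k)
    refine ⟨2 * (N₁ + N₂ + 3), fun n hn => ?_⟩
    have key : n ^ k ≤ (n / 2) ^ (2 * k) := by
      rw [pow_mul]
      apply Nat.pow_le_pow_left
      have h3 : 3 ≤ n / 2 := by omega
      have h4 : n ≤ 2 * (n / 2) + 1 := by omega
      nlinarith
    simp only [hgt]
    split_ifs with h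
    · exact (hf key).trans (h₁ (n / 2) (by omega))
    · exact (hf key).trans (h₂ (n / 2) (by omega))

theorem subset_mem {f : ℕ → ℕ} {X Y : Set Cantor} (hX : X ∈ YI f) (h : Y ⊆ X) : Y ∈ YI f := by
  obtain ⟨σ, hσ, hσf⟩ := hX
  exact ⟨σ, h.trans hσ, hσf⟩

theorem countable_mem {f : ℕ → ℕ} (hf : Monotone f) {X : Set Cantor} (hX : X.Countable) :
    X ∈ YI f := by
  rcases X.eq_empty_or_nonempty with rfl | hne
  · obtain ⟨σ, hσ, _⟩ := exists_seq f hf (fun _ _ => false)
    exact ⟨σ, by simp, hσ⟩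
  · obtain ⟨q, hq⟩ := hX.exists_eq_range hne
    obtain ⟨σ, hσ, h⟩ := exists_seq f hf q
    refine ⟨σ, ?_, hσ⟩
    rw [hq]
    rintro _ ⟨k, rfl⟩
    exact h k

/-- Every two members of `ℐ_f` are contained in one dense `G_δ` member. -/
theorem exists_dense {f : ℕ → ℕ} (hf : Monotone f) {X Y : Set Cantor} (hX : X ∈ YI f)
    (hY : Y ∈ YI f) : ∃ B, X ⊆ B ∧ Y ⊆ B ∧ Dense B ∧ IsGδ B ∧ B ∈ YI f := by
  obtain ⟨D, hDc, hDd⟩ := TopologicalSpace.exists_countable_dense Cantor
  have hD : D ∈ YI f := countable_mem hf hDc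
  obtain ⟨σ, hσ, hσf⟩ := union_mem hf hX hY
  obtain ⟨τ, hτ, hτf⟩ := union_mem hf ⟨σ, hσ, hσf⟩ hD
  refine ⟨limSet τ, ?_, ?_, ?_, limSet_isGδ τ, ⟨τ, subset_rfl, hτf⟩⟩
  · exact fun x hx => hτ (Or.inl (Or.inl hx))
  · exact fun x hx => hτ (Or.inl (Or.inr hx))
  · exact hDd.mono fun x hx => hτ (Or.inr hx)

theorem exists_ext {U : Set Cantor} (hU : IsOpen U) (hd : Dense U) (s : List Bool) :
    ∃ t, s <+: t ∧ cyl t ⊆ U := by
  have hne : (cyl s).Nonempty :=
    ⟨fun i => s.getD i false, fun i hi => List.getD_eq_getElem _ _ hi⟩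
  obtain ⟨y, hy, hyU⟩ := hd.inter_open_nonempty _ (cyl_isOpen s) hne
  obtain ⟨I, u, hu, hsub⟩ := (isOpen_pi_iff.mp hU) y hyU
  obtain ⟨M, hM⟩ := I.bddAbove
  refine ⟨pre y (max (M + 1) s.length), ?_, ?_⟩
  · rw [List.prefix_iff_getElem]
    refine ⟨by simp [pre_length], ?_⟩
    intro i hi
    simp only [pre, List.getElem_ofFn]
    exact (hy i hi).symm
  · intro z hz
    apply hsub
    intro a ha
    have ha' : a < (pre y (max (M + 1) s.length)).length := by
      rw [pre_length]
      have := hM ha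
      omega
    have := hz a ha'
    simp only [pre, List.getElem_ofFn] at this
    rw [this]
    exact (hu a ha).2

/-- A dense `G_δ` set is not contained in `[σ]_∞` if the lengths of `σ` grow fast enough. -/
theorem fusion {U : ℕ → Set Cantor} (hU : ∀ n, IsOpen (U n)) (hd : ∀ n, Dense (U n)) :
    ∃ g : ℕ → ℕ, ∀ σ : ℕ → List Bool, LeStar g (hgt σ) → ∃ x, (∀ n, x ∈ U n) ∧ x ∉ limSet σ := by
  choose t ht htU using fun n s => exists_ext (hU n) (hd n) s
  let L : ℕ → ℕ := fun n => Nat.rec 0 (fun n L =>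
    (List.finite_length_le Bool (L + 1)).toFinset.sup (fun l => (t n l).length)) n
  have hL : ∀ n l, l.length ≤ L n + 1 → (t n l).length ≤ L (n + 1) := by
    intro n l hl
    exact Finset.le_sup (f := fun l => (t n l).length)
      ((List.finite_length_le Bool (L n + 1)).mem_toFinset.mpr hl)
  refine ⟨fun n => L n + 1, fun σ hσ => ?_⟩
  obtain ⟨N, hN⟩ := hσ
  let xs : ℕ → List Bool := fun n => Nat.rec [] (fun n x =>
    t n (x ++ [!(σ n).getD x.length false])) n
  have hxs : ∀ n, xs (n + 1) = t n (xs n ++ [!(σ n).getD (xs n).length false]) := fun n => rfl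
  have hpre : ∀ n, (xs n ++ [!(σ n).getD (xs n).length false]) <+: xs (n + 1) := fun n => ht n _
  have hlen : ∀ n, (xs n).length ≤ L n := by
    intro n
    induction n with
    | zero => simp [xs]
    | succ n ih =>
      rw [hxs]
      apply hL
      simp only [List.length_append, List.length_singleton]
      omega
  have hgrow : ∀ n, (xs n).length + 1 ≤ (xs (n + 1)).length := by
    intro n
    have := (hpre n).length_le
    simpa using this
  have hgrow' : ∀ n, n ≤ (xs n).length := by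
    intro n
    induction n with
    | zero => simp
    | succ n ih => have := hgrow n; omega
  have hmono : ∀ m n, m ≤ n → xs m <+: xs n := by
    intro m n h
    induction n, h using Nat.le_induction with
    | base => exact List.prefix_rfl
    | succ n _ ih => exact ih.trans ((List.prefix_append _ _).trans (hpre n))
  let x : Cantor := fun i => (xs (i + 1)).getD i false
  have hx : ∀ n i (h : i < (xs n).length), x i = (xs n)[i] := by
    intro n i h
    have h1 : i < (xs (i + 1)).length := by have := hgrow' (i + 1); omega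
    simp only [x, List.getD_eq_getElem _ _ h1]
    rcases le_total n (i + 1) with h2 | h2
    · exact ((hmono _ _ h2).getElem h).symm
    · exact (hmono _ _ h2).getElem h1
  refine ⟨x, ?_, ?_⟩
  · intro n
    apply htU n (xs n ++ [!(σ n).getD (xs n).length false])
    intro i hi
    exact hx (n + 1) i hi
  · intro hinf
    obtain ⟨n, hn, hNn⟩ := hinf.exists_gt N
    have hn' : x ∈ cyl (σ n) := hn
    have h1 : (xs n).length < (σ n).length := by
      have := hN n (by omega)
      have h2 := hlen n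
      simp only [hgt] at this
      omega
    have h3 := hn' _ h1
    have h4 := hx (n + 1) (xs n).length (by have := hgrow n; omega)
    have h5 := (hpre n).getElem (i := (xs n).length) (by simp)
    rw [h4, ← h5] at h3
    simp [h1] at h3

/-- A dense `G_δ` set is not in `ℐ_f` if `f` grows fast enough. -/
theorem exists_not_mem {C : Set Cantor} (hC : IsGδ C) (hd : Dense C) :
    ∃ g : ℕ → ℕ, ∀ f : ℕ → ℕ, (∀ n, g n ≤ f n) → C ∉ YI f := by
  obtain ⟨U, hU, rfl⟩ := hC.eq_iInter_nat
  obtain ⟨g, hg⟩ := fusion hU (fun n => hd.mono (iInter_subset _ n))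
  refine ⟨g, fun f hf hmem => ?_⟩
  obtain ⟨σ, hσ, hσf⟩ := hmem
  obtain ⟨N, hN⟩ := hσf 1
  obtain ⟨x, hx, hxσ⟩ := hg σ ⟨N, fun n hn => (hf n).trans (by simpa using hN n hn)⟩
  exact hxσ (hσ (mem_iInter.mpr hx))

end Pool.Agent.R553.SNT
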