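import Mathlib

/-!
# Strong measure zero sets, Yorioka ideals, Tukey connections: definitions
-/

open Set Filter Cardinal

namespace Pool.Agent.R553.SNT

/-- The Cantor space `2^ω`. -/
abbrev Cantor := ℕ → Bool

/-- `[s]`: the points of `2^ω` which extend the finite string `s`. -/
def cyl (s : List Bool) : Set Cantor := {x | ∀ i (h : i < s.length), x i = s[i]}

/-- `h_σ(n) = |σ(n)|`. -/
def hgt (σ : ℕ → List Bool) : ℕ → ℕ := fun n => (σ n).length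

/-- `[σ]_∞`: the points which extend `σ(n)` for infinitely many `n`. -/
def limSet (σ : ℕ → List Bool) : Set Cantor := {x | {n | x ∈ cyl (σ n)}.Infinite}

/-- `X` has strong measure zero. -/
def IsSMZ (X : Set Cantor) : Prop :=
  ∀ f : ℕ → ℕ, ∃ σ : ℕ → List Bool, hgt σ = f ∧ X ⊆ ⋃ n, cyl (σ n)

/-- `f ≤* g`. -/
def LeStar (f g : ℕ → ℕ) : Prop := ∃ N, ∀ n, N ≤ n → f n ≤ g n

/-- `f ≪ g`: `f ∘ pw_k ≤* g` for all `k`, where `pw_k(i) = i^k`. -/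
def Ll (f g : ℕ → ℕ) : Prop := ∀ k : ℕ, LeStar (fun i => f (i ^ k)) g

/-- `ℐ_f`. -/
def YI (f : ℕ → ℕ) : Set (Set Cantor) := {X | ∃ σ : ℕ → List Bool, X ⊆ limSet σ ∧ Ll f (hgt σ)}

/-- `non(ℐ_f)`: the least size of a set of points which is not in `ℐ_f`. -/
noncomputable def nonYI (f : ℕ → ℕ) : Cardinal.{0} := sInf {κ | ∃ X : Set Cantor, X ∉ YI f ∧ #X = κ}

/-- `minnon = min {non(ℐ_f) : f increasing}`. -/
noncomputable def minnon : Cardinal.{0} := sInf {κ | ∃ f : ℕ → ℕ, StrictMono f ∧ nonYI f = κ}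

/-- `𝔡`: the least size of a dominating family in `(ω^ω, ≤*)`. -/
noncomputable def domNumber : Cardinal.{0} :=
  sInf {κ | ∃ D : Set (ℕ → ℕ), (∀ f, ∃ g ∈ D, LeStar f g) ∧ #D = κ}

/-- `add(𝒮𝒩)`: the least size of a family of strong measure zero sets whose union does not have
strong measure zero. -/
noncomputable def addSN : Cardinal.{0} :=
  sInf {κ | ∃ F : Set (Set Cantor), (∀ X ∈ F, IsSMZ X) ∧ ¬ IsSMZ (⋃₀ F) ∧ #F = κ}

/-- `⟨X, Y, R⟩ ⪯_T ⟨X', Y', R'⟩`. -/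
def TukeyLE {X Y X' Y' : Type*} (R : X → Y → Prop) (R' : X' → Y' → Prop) : Prop :=
  ∃ (Ψ₁ : X → X') (Ψ₂ : Y' → Y), ∀ x y', R' (Ψ₁ x) y' → R x (Ψ₂ y')

/-- The relational system `⟨𝒮𝒩, 𝒮𝒩, ⊆⟩`. -/
def snRel (X Y : {X : Set Cantor // IsSMZ X}) : Prop := X.1 ⊆ Y.1

/-- The ordinals below the initial ordinal of the cardinal `lam`. -/
abbrev Idx (lam : Cardinal.{0}) : Type := lam.ord.ToType

/-- The relational system `⟨λ, λ, ≤⟩`. -/
def cardRel (lam : Cardinal.{0}) (a b : Idx lam) : Prop := a ≤ b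

/-- The relational system of a preorder. -/
def ordRel (S : Type*) [Preorder S] (a b : S) : Prop := a ≤ b

/-- The relational system `D_λ^λ`: functions from `λ` to `λ` with the pointwise order. -/
def powRel (lam : Cardinal.{0}) (a b : Idx lam → Idx lam) : Prop := ∀ i, a i ≤ b i

/-- `⟨A_i : i ∈ S⟩` is an `ℐ_f` directed system on `S`. -/
def IsDirSystem {S : Type*} [Preorder S] (f : ℕ → ℕ) (A : S → Set Cantor) : Prop :=
  (∀ i, Dense (A i) ∧ IsGδ (A i) ∧ A i ∈ YI f) ∧ (∀ i j, i ≤ j → A i ⊆ A j) ∧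
    ∀ X ∈ YI f, ∃ i, X ⊆ A i

/-- `⟨A^{f_γ} : γ < λ⟩` is a `λ`-dominating system on `S`, with `i₀` the minimum of `S`. -/
def IsDomSystem {S : Type*} [Preorder S] (i₀ : S) (lam : Cardinal.{0}) (f : Idx lam → ℕ → ℕ)
    (A : Idx lam → S → Set Cantor) : Prop :=
  (∀ γ, StrictMono (f γ)) ∧ (∀ g : ℕ → ℕ, ∃ γ, LeStar g (f γ)) ∧
    (∀ γ, IsDirSystem (f γ) (A γ)) ∧ ∀ γ, (⋂ η, ⋂ _ : η < γ, A η i₀) ∉ YI (f γ)

/-- The hypotheses of the question on `λ` and `S`: `λ` is infinite, `S` is a directed partial order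
with minimum `i₀` and without maximum, and (i), (ii), (iii) hold. -/
def Hyp (lam : Cardinal.{0}) (S : Type) [PartialOrder S] (i₀ : S) : Prop :=
  ℵ₀ ≤ lam ∧ (∀ a b : S, ∃ c, a ≤ c ∧ b ≤ c) ∧ (∀ a, i₀ ≤ a) ∧ (¬ ∃ m : S, ∀ a, a ≤ m) ∧
    TukeyLE (cardRel lam) (ordRel S) ∧
    (∃ (f : Idx lam → ℕ → ℕ) (A : Idx lam → S → Set Cantor), IsDomSystem i₀ lam f A) ∧
    lam ≤ minnon

end Pool.Agent.R553.SNT
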