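import Pool.Agent.R553.SNT.Basic

open Set Filter Cardinal

namespace Pool.Agent.R553.SNT

/-- A function together with a dense `G_δ` set. -/
abbrev Dat := {p : (ℕ → ℕ) × Set Cantor // IsGδ p.2 ∧ Dense p.2}

/-- The requirements of one step of the construction. -/
def Good (d : ℕ → ℕ) (C : Set Cantor) (p : Dat) : Prop :=
  StrictMono p.1.1 ∧ (∀ n, d n ≤ p.1.1 n) ∧ p.1.2 ∈ YI p.1.1 ∧ C ∉ YI p.1.1

theorem exists_good (d : ℕ → ℕ) {C : Set Cantor} (hC : IsGδ C) (hd : Dense C) :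
    ∃ p : Dat, Good d C p := by
  obtain ⟨g, hg⟩ := exists_not_mem hC hd
  let f : ℕ → ℕ := fun n => ∑ i ∈ Finset.range (n + 1), (g i + d i + 1)
  have hf : StrictMono f := by
    apply strictMono_nat_of_lt_succ
    intro n
    simp only [f]
    rw [Finset.sum_range_succ _ (n + 1)]
    omega
  have hle : ∀ n, g n + d n + 1 ≤ f n := fun n =>
    Finset.single_le_sum (f := fun i => g i + d i + 1) (fun _ _ => Nat.zero_le _)
      (Finset.self_mem_range_succ n)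
  have he : (∅ : Set Cantor) ∈ YI f := countable_mem hf.monotone countable_empty
  obtain ⟨A, _, _, hAd, hAG, hAf⟩ := exists_dense hf.monotone he he
  refine ⟨⟨(f, A), hAG, hAd⟩, hf, fun n => ?_, hAf, hg f fun n => ?_⟩
  · have := hle n
    simp only
    omega
  · have := hle n
    omega

theorem exists_family {I : Type} [LinearOrder I] [WellFoundedLT I]
    (hI : ∀ γ : I, (Set.Iio γ).Countable) (d : I → ℕ → ℕ) :
    ∃ p : I → Dat, ∀ γ, Good (d γ) (⋂ η, ⋂ _ : η < γ, (p η).1.2) (p γ) := by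
  have step : ∀ (γ : I) (prev : ∀ η, η < γ → Dat),
      ∃ q : Dat, Good (d γ) (⋂ η, ⋂ h : η < γ, (prev η h).1.2) q := by
    intro γ prev
    apply exists_good
    · exact IsGδ.biInter (hI γ) (t := fun η h => (prev η h).1.2) fun η h => (prev η h).2.1
    · exact dense_biInter_of_Gδ (S := Set.Iio γ) (f := fun η h => (prev η h).1.2)
        (fun η h => (prev η h).2.1) (hI γ) (fun η h => (prev η h).2.2)
  choose F hF using step
  refine ⟨(wellFounded_lt (α := I)).fix F, fun γ => ?_⟩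
  have h := hF γ fun η _ => (wellFounded_lt (α := I)).fix F η
  rw [← (wellFounded_lt (α := I)).fix_eq F γ] at h
  exact h

theorem univ_not_mem {f : ℕ → ℕ} (hf : StrictMono f) : (univ : Set Cantor) ∉ YI f := by
  rintro ⟨σ, hσ, hσf⟩
  obtain ⟨N, hN⟩ := hσf 2
  have hx : (fun n => !(σ n).getD n false : Cantor) ∈ limSet σ := hσ (mem_univ _)
  obtain ⟨n, hn, hNn⟩ := hx.exists_gt (N + 1)
  have h1 : n < (σ n).length := by
    have h2 := hN n (by omega)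
    have h3 : n ^ 2 ≤ f (n ^ 2) := hf.le_apply
    simp only [hgt] at h2
    have h4 : n < n ^ 2 := by nlinarith
    omega
  have := hn n h1
  simp [h1] at this

theorem aleph_one_le_nonYI {f : ℕ → ℕ} (hf : StrictMono f) : ℵ₁ ≤ nonYI f := by
  refine le_csInf ⟨#(univ : Set Cantor), univ, univ_not_mem hf, rfl⟩ ?_
  rintro κ ⟨X, hX, rfl⟩
  by_contra h
  rw [← succ_aleph0, Order.succ_le_iff, not_lt] at h
  exact hX (countable_mem hf.monotone (le_aleph0_iff_set_countable.mp h))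

theorem aleph_one_le_minnon : ℵ₁ ≤ minnon := by
  refine le_csInf ⟨nonYI id, id, strictMono_id, rfl⟩ ?_
  rintro κ ⟨f, hf, rfl⟩
  exact aleph_one_le_nonYI hf

theorem exists_indexed (h : domNumber = ℵ₁) :
    ∃ d : Idx ℵ₁ → ℕ → ℕ, ∀ g : ℕ → ℕ, ∃ γ, LeStar g (d γ) := by
  have hmem := csInf_mem (s := {κ : Cardinal.{0} | ∃ D : Set (ℕ → ℕ),
    (∀ f, ∃ g ∈ D, LeStar f g) ∧ #D = κ}) ⟨_, univ, fun f => ⟨f, mem_univ _, 0, fun _ _ => le_rfl⟩,
      rfl⟩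
  change domNumber ∈ _ at hmem
  rw [h] at hmem
  obtain ⟨D, hD, hcard⟩ := hmem
  have : #D = #(Idx ℵ₁) := by rw [hcard, mk_ord_toType]
  obtain ⟨e⟩ := Cardinal.eq.mp this
  refine ⟨fun γ => (e.symm γ).1, fun g => ?_⟩
  obtain ⟨g', hg', hle⟩ := hD g
  exact ⟨e ⟨g', hg'⟩, by simpa using hle⟩

theorem exists_hyp (h : domNumber = ℵ₁) :
    ∃ (S : Type) (_ : PartialOrder S) (i₀ : S), Hyp ℵ₁ S i₀ := by
  obtain ⟨d, hd⟩ := exists_indexed h
  have hI : ∀ γ : Idx ℵ₁, (Set.Iio γ).Countable := fun γ =>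
    (countable_iff_lt_aleph_one _).mpr (mk_Iio_toType_ord_lt γ)
  obtain ⟨p, hp⟩ := exists_family hI d
  have : NoMaxOrder (Idx ℵ₁) := Cardinal.noMaxOrder (aleph0_le_aleph 1)
  have : Nonempty (Idx ℵ₁) := by
    rw [← mk_ne_zero_iff, mk_ord_toType]
    exact (aleph0_pos.trans_le (aleph0_le_aleph 1)).ne'
  obtain ⟨bot, hbot⟩ : ∃ b : Idx ℵ₁, ∀ a, b ≤ a := by
    obtain ⟨b, -, hb⟩ := (wellFounded_lt (α := Idx ℵ₁)).has_min univ univ_nonempty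
    exact ⟨b, fun a => not_lt.mp (hb a (mem_univ _))⟩
  let f : Idx ℵ₁ → ℕ → ℕ := fun γ => (p γ).1.1
  let K : Idx ℵ₁ → Set Cantor := fun γ => (p γ).1.2
  let D : Idx ℵ₁ → Type := fun γ => {B : Set Cantor // (Dense B ∧ IsGδ B ∧ B ∈ YI (f γ)) ∧ K γ ⊆ B}
  let b₀ : ∀ γ, D γ := fun γ => ⟨K γ, ⟨(p γ).2.2, (p γ).2.1, (hp γ).2.2.1⟩, subset_rfl⟩
  let _ : ∀ γ, PartialOrder (D γ) := fun γ => Subtype.partialOrder _
  refine ⟨Idx ℵ₁ × (∀ γ, D γ), inferInstance, (bot, b₀), (aleph0_le_aleph 1), ?_, ?_, ?_, ?_, ?_,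
    aleph_one_le_minnon⟩
  · rintro ⟨a, s⟩ ⟨b, t⟩
    choose B hB₁ hB₂ hBd hBG hBf using fun γ =>
      exists_dense (hp γ).1.monotone (s γ).2.1.2.2 (t γ).2.1.2.2
    refine ⟨(max a b, fun γ => ⟨B γ, ⟨hBd γ, hBG γ, hBf γ⟩, (s γ).2.2.trans (hB₁ γ)⟩), ?_, ?_⟩
    · exact ⟨le_max_left _ _, fun γ => hB₁ γ⟩
    · exact ⟨le_max_right _ _, fun γ => hB₂ γ⟩
  · rintro ⟨a, s⟩
    exact ⟨hbot a, fun γ => (s γ).2.2⟩
  · rintro ⟨⟨m, s⟩, hm⟩
    obtain ⟨m', hm'⟩ := exists_gt m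
    exact absurd (hm (m', s)).1 (not_le.mpr hm')
  · exact ⟨fun a => (a, b₀), fun s => s.1, fun a s h => h.1⟩
  · refine ⟨f, fun γ s => (s.2 γ).1, fun γ => (hp γ).1, ?_, ?_, ?_⟩
    · intro g
      obtain ⟨γ, N, hN⟩ := hd g
      exact ⟨γ, N, fun n hn => (hN n hn).trans ((hp γ).2.1 n)⟩
    · intro γ
      refine ⟨fun s => (s.2 γ).2.1, fun s t h => h.2 γ, fun X hX => ?_⟩
      obtain ⟨B, hB₁, hB₂, hBd, hBG, hBf⟩ :=
        exists_dense (hp γ).1.monotone hX (hp γ).2.2.1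
      refine ⟨(bot, Function.update b₀ γ ⟨B, ⟨hBd, hBG, hBf⟩, hB₂⟩), ?_⟩
      simpa using hB₁
    · intro γ
      exact (hp γ).2.2.2

theorem addSN_le {lam : Cardinal.{0}} (hlam : ℵ₀ ≤ lam) (h : TukeyLE (cardRel lam) snRel) :
    addSN ≤ lam.ord.cof := by
  obtain ⟨Ψ₁, Ψ₂, hΨ⟩ := h
  rw [← Ordinal.cof_toType]
  obtain ⟨T, hT, hcard⟩ := Order.exists_cof_eq (Idx lam)
  rw [← hcard]
  have hle : #((fun a => (Ψ₁ a).1) '' T) ≤ #T := mk_image_le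
  refine le_trans (csInf_le' ⟨(fun a => (Ψ₁ a).1) '' T, ?_, ?_, rfl⟩) hle
  · rintro _ ⟨a, _, rfl⟩
    exact (Ψ₁ a).2
  · intro hU
    have : NoMaxOrder (Idx lam) := Cardinal.noMaxOrder hlam
    obtain ⟨b, hb⟩ := exists_gt (Ψ₂ ⟨_, hU⟩)
    obtain ⟨a, ha, hba⟩ := hT b
    have := hΨ a ⟨_, hU⟩ (fun x hx => mem_sUnion.mpr ⟨_, ⟨a, ha, rfl⟩, hx⟩)
    exact absurd (hba.trans this) (not_le.mpr hb)

theorem card_le_pow (lam : Cardinal.{0}) (hlam : ℵ₀ ≤ lam) :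
    TukeyLE (cardRel lam) (powRel lam) := by
  have : Nonempty (Idx lam) := by
    rw [← mk_ne_zero_iff, mk_ord_toType]
    exact (aleph0_pos.trans_le hlam).ne'
  exact ⟨fun a _ => a, fun g => g (Classical.arbitrary _), fun a g h => h _⟩

theorem TukeyLE.trans {X Y X' Y' X'' Y'' : Type*} {R : X → Y → Prop} {R' : X' → Y' → Prop}
    {R'' : X'' → Y'' → Prop} (h : TukeyLE R R') (h' : TukeyLE R' R'') : TukeyLE R R'' := by
  obtain ⟨a, b, hab⟩ := h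
  obtain ⟨c, d, hcd⟩ := h'
  exact ⟨c ∘ a, b ∘ d, fun x y hxy => hab _ _ (hcd _ _ hxy)⟩

end Pool.Agent.R553.SNT
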